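import Pool.Agent.Lib.MP_b5021c_nt.IfaceB

/-!
# Board b5, row A6C: the Mahler measure is at least the modulus of the lowest coefficient
-/

namespace Pool.Agent.B5.H24

open Polynomial

theorem a6c : A6S := by
  intro p
  by_cases hp : p = 0
  · subst hp; simp
  obtain ⟨q, hq⟩ : (X : ℂ[X]) ^ p.natTrailingDegree ∣ p := by
    rw [X_pow_dvd_iff]
    intro d hd
    exact coeff_eq_zero_of_lt_natTrailingDegree hd
  have h1 : p.trailingCoeff = q.coeff 0 := by
    rw [trailingCoeff]
    have := coeff_X_pow_mul q p.natTrailingDegree 0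
    rw [zero_add] at this
    rw [← this]
    exact congrArg (fun r => r.coeff p.natTrailingDegree) hq
  have hX : ∀ n : ℕ, ((X : ℂ[X]) ^ n).mahlerMeasure = 1 := by
    intro n
    induction n with
    | zero => simp
    | succ n ih =>
      rw [pow_succ, mahlerMeasure_mul, ih, one_mul]
      have := mahlerMeasure_X_sub_C 0
      rw [map_zero, sub_zero] at this
      rw [this]; simp
  have h2 : p.mahlerMeasure = q.mahlerMeasure := by
    conv_lhs => rw [hq, mahlerMeasure_mul, hX, one_mul]
  rw [h1, h2]
  have := norm_coeff_le_choose_mul_mahlerMeasure 0 q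
  simpa using this

end Pool.Agent.B5.H24
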