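import Pool.Agent.Lib.MP_b5021c_nt.B.H02.Uni

/-!
# Board b5, row B5U: closing preserves unitarity
-/

namespace Pool.Agent.B5.H24

open scoped LaurentPolynomial

section

variable {O : Type} [CommRing O] [IsDomain O] [IsPrincipalIdealRing O] [Coef O]
variable {L : Type} [AddCommGroup L]

theorem conj_mul_self_unit {u : O} (hu : IsUnit u) : (Coef.conj : O ≃+* O) u * u = 1 := by
  obtain ⟨v, rfl⟩ := hu
  have h1 : 1 ≤ ‖Coef.emb (v : O)‖ := Coef.one_le _ v.ne_zero
  have h2 : 1 ≤ ‖Coef.emb ((v⁻¹ : Oˣ) : O)‖ := Coef.one_le _ v⁻¹.ne_zero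
  have h3 : ‖Coef.emb (v : O)‖ * ‖Coef.emb ((v⁻¹ : Oˣ) : O)‖ = 1 := by
    rw [← norm_mul, ← map_mul, Units.mul_inv, map_one, norm_one]
  have h4 : ‖Coef.emb (v : O)‖ = 1 := by nlinarith
  apply emb_inj
  rw [map_mul, Coef.emb_conj, map_one, ← Complex.normSq_eq_conj_mul_self, Complex.normSq_eq_norm_sq,
    h4]
  simp

theorem rsh_C_T (u : O) (n : ℤ) : rsh (LaurentPolynomial.C u * LaurentPolynomial.T n) =
    LaurentPolynomial.C ((Coef.conj : O ≃+* O) u) * LaurentPolynomial.T (-n) := by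
  have h : AddMonoidAlgebra.mapRingHom ℤ (Coef.conj : O ≃+* O).toRingHom
      (LaurentPolynomial.C u * LaurentPolynomial.T n) =
      LaurentPolynomial.C ((Coef.conj : O ≃+* O) u) * LaurentPolynomial.T n := by
    rw [← LaurentPolynomial.single_eq_C_mul_T, ← LaurentPolynomial.single_eq_C_mul_T,
      AddMonoidAlgebra.mapRingHom_single]
    rfl
  change LaurentPolynomial.invert (AddMonoidAlgebra.mapRingHom ℤ
    (Coef.conj : O ≃+* O).toRingHom (LaurentPolynomial.C u * LaurentPolynomial.T n)) = _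
  rw [h, map_mul, LaurentPolynomial.invert_C, LaurentPolynomial.invert_T]

theorem rsh_unit (eta : (RO O)ˣ) : rsh (eta : RO O) * (eta : RO O) = 1 := by
  obtain ⟨n, u, hu, h⟩ := (Pool.Agent.B5.H02.uni O (eta : RO O)).mp eta.isUnit
  rw [h, rsh_C_T, mul_mul_mul_comm, ← map_mul, conj_mul_self_unit hu,
    ← LaurentPolynomial.T_add]
  simp

theorem sharp_single (a : L) (q : RO O) :
    sharp (AddMonoidAlgebra.single a q : AO O L) = AddMonoidAlgebra.single (-a) (rsh q) := by
  simp [sharp]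

theorem rsh_zpow (eta : (RO O)ˣ) (n : ℤ) :
    rsh ((eta ^ n : (RO O)ˣ) : RO O) = ((eta ^ (-n) : (RO O)ˣ) : RO O) := by
  have h1 : Units.map (rsh (O := O) : RO O →* RO O) eta = eta⁻¹ := by
    rw [eq_inv_iff_mul_eq_one]
    apply Units.ext
    exact rsh_unit eta
  have h2 : (Units.map (rsh (O := O) : RO O →* RO O) (eta ^ n) : RO O) = ((eta ^ (-n) : (RO O)ˣ) : RO O) := by
    rw [map_zpow, h1, inv_zpow, zpow_neg]
  exact h2

theorem sharp_cl (k : L →+ ℤ) (S : L) (h : k S = 1) (eta : (RO O)ˣ) (D : AO O L) :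
    sharp (cl k S h eta D) = cl k S h eta (sharp D) := by
  induction D using AddMonoidAlgebra.induction_linear with
  | zero => simp
  | add f g hf hg => rw [map_add, map_add, map_add, map_add, hf, hg]
  | single a q =>
    rw [cl_single, sharp_single, sharp_single, cl_single, map_mul, rsh_zpow, map_neg, map_neg]

theorem b5u : B5uS := by
  intro O _ _ _ _ L _ _ _ D k S h eta hD
  unfold Unitary at *
  rw [sharp_cl]
  exact hD.map (cl k S h eta)

end

end Pool.Agent.B5.H24
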