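import Pool.Agent.Lib.MP_b5021c_nt.IfaceB

/-!
# Board b5, row MU1: the multi-parameter lemma with the extra parameter `s`
-/

namespace Pool.Agent.B5.H24

open Polynomial

section

variable {L : Type} [AddCommGroup L] {ι : Type} [Fintype ι]

/-- `p` at the point `u`, `s`, `t`. -/
noncomputable def ff (p : CA L) (lam : L →+ ℤ) (mu : ι → L →+ ℤ) (u : AddChar L Circle) (s : ℂ)
    (t : ι → ℂ) : ℂ :=
  ∑ a ∈ p.coeff.support, p.coeff a * (u a : ℂ) * (s ^ (lam a).toNat * ∏ i, t i ^ (mu i a).toNat)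

theorem mev_eq (p : CA L) (lam : L →+ ℤ) (mu : ι → L →+ ℤ) (u : AddChar L Circle) (s : ℂ)
    (t : ι → ℂ) :
    mev (ι := Option ι) u (fun o => o.elim lam mu) (fun o => o.elim s t) p = ff p lam mu u s t := by
  unfold mev ff
  rw [Finsupp.sum]
  refine Finset.sum_congr rfl fun a _ => ?_
  rw [Fintype.prod_option]
  rfl

/-- `u ∏ τ_i^(mu_i)`. -/
noncomputable def twm (mu : ι → L →+ ℤ) (u : AddChar L Circle) (τ : ι → Circle) :
    AddChar L Circle where
  toFun a := u a * ∏ i, τ i ^ (mu i a)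
  map_zero_eq_one' := by simp
  map_add_eq_mul' a b := by
    simp only [AddChar.map_add_eq_mul, map_add, zpow_add, Finset.prod_mul_distrib]
    exact mul_mul_mul_comm _ _ _ _

theorem ff_circle (p : CA L) (lam : L →+ ℤ) (mu : ι → L →+ ℤ) (hmu : ∀ i, Nn (mu i) p)
    (u : AddChar L Circle) (s : ℂ) (τ : ι → Circle) :
    ff p lam mu u s (fun i => (τ i : ℂ)) = (sl (twm mu u τ) lam p).eval s := by
  unfold ff sl
  rw [Finsupp.sum, eval_finsetSum]
  refine Finset.sum_congr rfl fun a ha => ?_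
  rw [eval_monomial]
  have h : ((twm mu u τ) a : ℂ) = (u a : ℂ) * ∏ i, (τ i : ℂ) ^ (mu i a).toNat := by
    change ((u a * ∏ i, τ i ^ (mu i a) : Circle) : ℂ) = _
    rw [Circle.coe_mul, ← Circle.coeHom_apply, ← Circle.coeHom_apply, map_prod]
    congr 1
    refine Finset.prod_congr rfl fun i _ => ?_
    rw [Circle.coeHom_apply, Circle.coe_zpow]
    conv_lhs => rw [← Int.toNat_of_nonneg (hmu i a ha), zpow_natCast]
  rw [h]
  ring

/-- The two-variable polynomial in `s` and `t j`. -/
noncomputable def gg [DecidableEq ι] (p : CA L) (lam : L →+ ℤ) (mu : ι → L →+ ℤ)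
    (u : AddChar L Circle) (t : ι → ℂ) (j : ι) : ℂ[X][X] :=
  ∑ a ∈ p.coeff.support, monomial (mu j a).toNat (monomial (lam a).toNat
    (p.coeff a * (u a : ℂ) * ∏ i ∈ Finset.univ.erase j, t i ^ (mu i a).toNat))

theorem gg_eval [DecidableEq ι] (p : CA L) (lam : L →+ ℤ) (mu : ι → L →+ ℤ)
    (u : AddChar L Circle) (t : ι → ℂ) (j : ι) (s x : ℂ) :
    ((gg p lam mu u t j).eval (C x)).eval s = ff p lam mu u s (Function.update t j x) := by
  unfold gg ff
  rw [eval_finsetSum, eval_finsetSum]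
  refine Finset.sum_congr rfl fun a _ => ?_
  rw [eval_monomial, eval_mul, eval_monomial, ← C_pow, eval_C,
    ← Finset.mul_prod_erase Finset.univ (fun i => Function.update t j x i ^ (mu i a).toNat)
      (Finset.mem_univ j), Function.update_self]
  have h : ∏ i ∈ Finset.univ.erase j, Function.update t j x i ^ (mu i a).toNat =
      ∏ i ∈ Finset.univ.erase j, t i ^ (mu i a).toNat := by
    refine Finset.prod_congr rfl fun i hi => ?_
    rw [Function.update_of_ne (Finset.ne_of_mem_erase hi)]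
  rw [h]
  ring

theorem ff_zero (p : CA L) (lam : L →+ ℤ) (mu : ι → L →+ ℤ) (h0 : p.coeff 0 ≠ 0)
    (hl : Pos lam p) (u : AddChar L Circle) (t : ι → ℂ) : ff p lam mu u 0 t = p.coeff 0 := by
  unfold ff
  rw [Finset.sum_eq_single 0]
  · simp
  · intro a ha hne
    have h1 : (lam a).toNat ≠ 0 := by
      have := hl a ha hne
      omega
    rw [zero_pow h1]; ring
  · intro h
    exact absurd (Finsupp.mem_support_iff.mpr h0) h

theorem ff_ne (hur : HurS) (p : CA L) (lam : L →+ ℤ) (mu : ι → L →+ ℤ) (h0 : p.coeff 0 ≠ 0)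
    (hl : Pos lam p)
    (hs : ∀ (u : AddChar L Circle) (s : ℂ), ‖s‖ < 1 → (sl u lam p).eval s ≠ 0)
    (hmu : ∀ i, Nn (mu i) p) (u : AddChar L Circle) (J : Finset ι) :
    ∀ (s : ℂ) (t : ι → ℂ), ‖s‖ < 1 → (∀ i, ‖t i‖ ≤ 1) → (∀ i, i ∉ J → ‖t i‖ = 1) →
      ff p lam mu u s t ≠ 0 := by
  classical
  induction J using Finset.induction_on with
  | empty =>
    intro s t hs1 _ ht1
    have h1 : ∀ i, ‖t i‖ = 1 := fun i => ht1 i (Finset.notMem_empty i)
    have h2 : t = fun i => ((⟨t i, mem_sphere_zero_iff_norm.mpr (h1 i)⟩ : Circle) : ℂ) := rfl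
    rw [h2, ff_circle p lam mu hmu]
    exact hs _ _ hs1
  | insert j J hj ih =>
    intro s t hs1 ht ht1
    have key := hur (gg p lam mu u t j) ?_ ?_ s (t j) hs1 (ht j)
    · rw [gg_eval, Function.update_eq_self] at key
      exact key
    · intro s' x hs' hx
      rw [gg_eval]
      refine ih s' _ hs' ?_ ?_
      · intro i
        by_cases hi : i = j
        · subst hi; rw [Function.update_self, hx]
        · rw [Function.update_of_ne hi]; exact ht i
      · intro i hi
        by_cases hij : i = j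
        · subst hij; rw [Function.update_self, hx]
        · rw [Function.update_of_ne hij]
          exact ht1 i (by simp [hij, hi])
    · intro x hx
      rw [gg_eval, ff_zero p lam mu h0 hl]
      exact h0

end

theorem mu1 (hur : HurS) : Multi1S := by
  intro L _ _ _ p lam h0 hl hs ι _ mu hmu u s t hs1 ht
  rw [mev_eq]
  exact ff_ne hur p lam mu h0 hl hs hmu u Finset.univ s t hs1 ht
    (fun i hi => absurd (Finset.mem_univ i) hi)

end Pool.Agent.B5.H24
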