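import Pool.Agent.Lib.MP_b5021c_nt.IfaceS2
import Pool.Agent.Lib.MP_b5021c_nt.B.H16.Lsv

/-!
# Board b5, row T_LSP (stage 2): the loads in class `P`
-/

namespace Pool.Agent.B5.H24

open Polynomial
open Pool.Agent.MP_b5021c_nt (Eis)
open Pool.Agent.B5.H40 (uT uT_val add_load)
open Pool.Agent.B5.H16 (lsv_evL)

/-- The classes are invariant under multiplication by `T^n`. -/
theorem shiftV (N : ℝ) (n : ℤ) (Q : RO Eis) (h : ClassV N Q) :
    ClassV N (LaurentPolynomial.T n * Q) := by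
  obtain ⟨h1, m, q, rfl, h2, h3⟩ := h
  refine ⟨h1, n + m, q, ?_, h2, h3⟩
  rw [LaurentPolynomial.T_add, mul_assoc]

/-- The classes are invariant under multiplication by `T^n`. -/
theorem shiftP (θ : ℝ) (n : ℤ) (Q : RO Eis) (h : ClassP θ Q) :
    ClassP θ (LaurentPolynomial.T n * Q) := by
  obtain ⟨h1, m, q, rfl, h2, h3⟩ := h
  refine ⟨h1, n + m, q, ?_, h2, h3⟩
  rw [LaurentPolynomial.T_add, mul_assoc]

/-- Outcome of a load of type B. -/
theorem loadB (n m : ℤ) (q f : Eis[X]) (v : Eisˣ) :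
    LaurentPolynomial.T n * toLaurent q +
      ((uT v (n - m + 1) : (RO Eis)ˣ) : RO Eis) * (LaurentPolynomial.T m * toLaurent f) =
    LaurentPolynomial.T n * toLaurent (q + C (v : Eis) * X * f) := by
  have h1 := add_load q f n m v 1
  rw [Nat.cast_one, pow_one] at h1
  exact h1

/-- Outcome of a load of type A. -/
theorem loadA (n m : ℤ) (q f : Eis[X]) (v : Eisˣ) :
    LaurentPolynomial.T n * toLaurent q +
      ((uT v (n - m) : (RO Eis)ˣ) : RO Eis) * (LaurentPolynomial.T m * toLaurent f) =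
    LaurentPolynomial.T n * toLaurent (q + C (v : Eis) * f) := by
  have h1 := add_load q f n m v 0
  rw [Nat.cast_zero, add_zero, pow_zero, mul_one] at h1
  exact h1

/-- A load of type B times `F`. -/
theorem loadB' (n m : ℤ) (f : Eis[X]) (v : Eisˣ) :
    ((uT v (n - m + 1) : (RO Eis)ˣ) : RO Eis) * (LaurentPolynomial.T m * toLaurent f) =
    LaurentPolynomial.T n * toLaurent (C (v : Eis) * X * f) := by
  have h1 := loadB n m 0 f v
  rwa [map_zero, mul_zero, zero_add, zero_add] at h1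

/-- The mean of a load of type B. -/
theorem mnB (hE : EvRS) (hM : MepS) (n m : ℤ) (θ : ℝ) (q f : Eis[X]) (s r : ℂ[X]) (T c : ℂ)
    (hd : PDat θ q f s r T c) (v : Eisˣ) :
    ‖mn (((uT v (n - m + 1) : (RO Eis)ˣ) : RO Eis) * (LaurentPolynomial.T m * toLaurent f))
      (LaurentPolynomial.T n * toLaurent q)‖ = ‖c‖ / θ := by
  rw [loadB']
  have hT1 : 1 < ‖T‖ := by rw [hd.nT]; exact hd.th
  have hv1 : ‖Eis.emb (v : Eis)‖ = 1 := Eis.norm_emb_unit v.isUnit
  have h1 : mn (LaurentPolynomial.T n * toLaurent (C (v : Eis) * X * f))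
      (LaurentPolynomial.T n * toLaurent q) =
      Real.circleAverage (fun z => Eis.emb (v : Eis) •
        (z * (c / (1 - T * z) + r.eval z / s.eval z))) 0 1 := by
    unfold mn
    apply Real.circleAverage_congr_sphere
    intro z hz
    have hz1 : ‖z‖ = 1 := by
      rw [abs_one] at hz
      exact mem_sphere_zero_iff_norm.mp hz
    obtain ⟨t, ht, h⟩ := lsv_evL hE n z hz1
    have ht0 : t ≠ 0 := by
      intro h0
      rw [h0, norm_zero] at ht
      exact zero_ne_one ht
    change evL z _ / evL z _ = _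
    rw [h, h, mul_div_mul_left _ _ ht0]
    have hq := hd.nz z hz1
    have hsz := hd.s0 z hz1.le
    change (eval z (((C (v : Eis)) * X * f).map Eis.emb)) / (eval z (q.map Eis.emb)) = _
    rw [Polynomial.map_mul, Polynomial.map_mul, map_C, map_X, hd.fs]
    have hq' : (q.map Eis.emb).eval z = (1 - T * z) * s.eval z := by
      rw [hd.qs]; simp
    rw [hq'] at hq ⊢
    have h1T : (1 - T * z) ≠ 0 := left_ne_zero_of_mul hq
    have h1T' : (1 - z * T) ≠ 0 := by rwa [mul_comm z T]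
    simp only [eval_mul, eval_C, eval_X, eval_add, eval_sub, eval_one, smul_eq_mul]
    rw [mul_comm T z]
    field_simp
  rw [h1, Real.circleAverage_fun_smul, hM r s T c hT1 hd.s0, norm_smul, hv1, one_mul, norm_neg,
    norm_div, hd.nT]

/-- Row T_LSP. -/
theorem lsp (hPda : PdaS) (hLpb : LpbS) (hLpa : LpaS) (hB : BstS) (hM : MepS) (hE : EvRS) :
    LspS := by
  intro θ Q F hθ hQ hF hnz hle hne
  obtain ⟨n, m, q, f, s, r, T, c, rfl, rfl, hd⟩ := hPda θ Q F hQ hF hnz hle hne
  have hθ0 : 0 < θ := by linarith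
  have hs3 : (1.73 : ℝ) ≤ Real.sqrt 3 := by
    apply Real.le_sqrt_of_sq_le; norm_num
  rcases le_or_gt 1 ‖c‖ with hc | hc
  · -- type B
    obtain ⟨u, v, w, hu, hv, huv, hw1, hw2, h1, h2⟩ := hB (c * (starRingEnd ℂ) T)
    have hnn : ‖c * (starRingEnd ℂ) T‖ = ‖c‖ * θ := by
      rw [norm_mul, Complex.norm_conj, hd.nT]
    rw [hnn] at h1 h2
    have hcθ : 0 ≤ ‖c‖ * θ := by positivity
    rcases le_or_gt ‖c‖ (θ / 4) with hc4 | hc4
    · left
      refine ⟨uT hu.unit (n - m + 1), uT hv.unit (n - m + 1), ⟨w, ?_, hw1, hw2⟩, ?_, ?_, ?_⟩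
      · change LaurentPolynomial.C u * LaurentPolynomial.T (n - m + 1) =
          LaurentPolynomial.C w * (LaurentPolynomial.C v * LaurentPolynomial.T (n - m + 1))
        rw [huv, map_mul, mul_assoc]
      · rw [mnB hE hM n m θ q f s r T c hd]
        exact div_le_div_of_nonneg_right hc hθ0.le
      · rw [mnB hE hM n m θ q f s r T c hd, div_le_iff₀ hθ0]
        linarith
      · have key : ∀ x : Eisˣ, 1 / 2 * (‖c‖ * θ) ≤
            (Eis.emb (x : Eis) * (c * (starRingEnd ℂ) T)).re →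
            ClassV 1 (LaurentPolynomial.T n * toLaurent q +
              ((uT x (n - m + 1) : (RO Eis)ˣ) : RO Eis) *
                (LaurentPolynomial.T m * toLaurent f)) ∨
            ∃ θ' : ℝ, θ' ≤ θ - 1 / 2 + 8 / θ ∧ ClassP θ' (LaurentPolynomial.T n * toLaurent q +
              ((uT x (n - m + 1) : (RO Eis)ˣ) : RO Eis) *
                (LaurentPolynomial.T m * toLaurent f)) := by
          intro x hx
          rw [loadB]
          rcases (hLpb θ q f s r T c hθ hd hc x).1 hc4 hx with h3 | ⟨θ', h3, h4⟩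
          · exact Or.inl (shiftV _ _ _ h3)
          · exact Or.inr ⟨θ', h3, shiftP _ _ _ h4⟩
        rintro e (rfl | rfl)
        · apply key
          change _ ≤ (Eis.emb u * _).re
          nlinarith
        · exact key hv.unit h2
    · right
      refine ⟨uT hu.unit (n - m + 1), ?_⟩
      rw [loadB]
      rcases (hLpb θ q f s r T c hθ hd hc hu.unit).2 hc4.le h1 with h3 | ⟨θ', h3, h4⟩
      · exact Or.inl (shiftV _ _ _ h3)
      · exact Or.inr (Or.inl ⟨θ', h3, shiftP _ _ _ h4⟩)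
  · -- type A
    right
    by_cases hfu : IsUnit (f.coeff 0)
    · obtain ⟨v, N', h1, h2⟩ := (hLpa θ q f s r T c hθ hd hc.le).2 hfu
      refine ⟨uT v (n - m), ?_⟩
      rw [loadA]
      exact Or.inr (Or.inr ⟨N', h1, shiftV _ _ _ h2⟩)
    · obtain ⟨v, h1⟩ := (hLpa θ q f s r T c hθ hd hc.le).1 hfu hc
      refine ⟨uT v (n - m), ?_⟩
      rw [loadA]
      rcases h1 with h1 | ⟨θ', h1, h2⟩
      · exact Or.inl (shiftV _ _ _ h1)
      · exact Or.inr (Or.inl ⟨θ', h1, shiftP _ _ _ h2⟩)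

end Pool.Agent.B5.H24
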