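import Pool.Agent.Lib.MP_b5021c_nt.IfaceS4
import Pool.Agent.Lib.MP_b5021c_nt.B.H24.Lsp

/-!
# Board b5, row U_LP3 (stage 2, final form): the loads in class `P`
-/

namespace Pool.Agent.B5.H24

open Polynomial
open Pool.Agent.MP_b5021c_nt (Eis)
open Pool.Agent.B5.H40 (uT uT_val norm_evR)
open Pool.Agent.B5.H16 (lsv_M)

/-- Row U_LP3. -/
theorem lp3 (hPda : PdaS) (hLb : Lb2S) (hLa : La2S) (hB : BstS) (hM : MepS) (hPu : PucS)
    (hE : EvRS) (hA6 : A6S) : Lp3S := by
  intro θ Q F hθ hQ hF hnz hle hne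
  obtain ⟨n, m, q, f, s, r, T, c, rfl, rfl, hd⟩ := hPda θ Q F hQ hF hnz hle hne
  have hθ0 : 0 < θ := by linarith
  have hθi : 1 / θ ≤ 1 / 200 := one_div_le_one_div_of_le (by norm_num) hθ
  have hθi0 : 0 < 1 / θ := by positivity
  have h20 : 20 / θ = 20 * (1 / θ) := by ring
  have hs3 : (1.73 : ℝ) ≤ Real.sqrt 3 := by
    apply Real.le_sqrt_of_sq_le; norm_num
  -- the constant coefficient of `f`
  have hf0 := hd.f0
  have hf1 : 1 ≤ ‖(Coef.emb (f.coeff 0) : ℂ)‖ := Coef.one_le _ hf0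
  have hMF := lsv_M hE hA6 m f hf0
  have hq1 : ‖(Coef.emb (q.coeff 0) : ℂ)‖ = 1 := hd.q0
  have hs0 : ‖s.eval 0‖ = 1 := by
    have h1 : (q.map Eis.emb).eval 0 = s.eval 0 := by rw [hd.qs]; simp
    rw [← h1, ← coeff_zero_eq_eval_zero, coeff_map]
    exact hd.q0
  have hfe : (Coef.emb (f.coeff 0) : ℂ) = c * s.eval 0 + r.eval 0 := by
    have h1 : (f.map Eis.emb).eval 0 = c * s.eval 0 + r.eval 0 := by rw [hd.fs]; simp
    rw [← h1, ← coeff_zero_eq_eval_zero, coeff_map]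
    rfl
  have hfc : ‖c‖ - 1 ≤ ‖(Coef.emb (f.coeff 0) : ℂ)‖ := by
    have h1 : ‖c * s.eval 0‖ ≤ ‖(Coef.emb (f.coeff 0) : ℂ)‖ + ‖r.eval 0‖ := by
      have h2 : c * s.eval 0 = (Coef.emb (f.coeff 0) : ℂ) - r.eval 0 := by rw [hfe]; ring
      rw [h2]
      exact norm_sub_le _ _
    rw [norm_mul, hs0, mul_one] at h1
    have h3 := hd.h0
    rw [hs0] at h3
    linarith
  -- the units
  obtain ⟨u, v, w, hu, hv, huv, hw1, hw2, h1, h2⟩ := hB (c * (starRingEnd ℂ) T)
  have hnn : ‖c * (starRingEnd ℂ) T‖ = ‖c‖ * θ := by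
    rw [norm_mul, Complex.norm_conj, hd.nT]
  rw [hnn] at h1 h2
  have hcθ : 0 ≤ ‖c‖ * θ := by positivity
  -- transport of the outcomes
  have tB : ∀ (x : Eisˣ) (y : ℝ), (ClassV 1 (toLaurent (q + C (x : Eis) * X * f)) ∨
      ∃ θ' : ℝ, θ' ≤ y ∧ ClassP θ' (toLaurent (q + C (x : Eis) * X * f))) →
      ToP y (LaurentPolynomial.T n * toLaurent q) (LaurentPolynomial.T m * toLaurent f)
        (uT x (n - m + 1)) := by
    intro x y h
    unfold ToP
    rw [loadB]
    rcases h with h3 | ⟨θ', h3, h4⟩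
    · exact Or.inl (shiftV _ _ _ h3)
    · exact Or.inr ⟨θ', h3, shiftP _ _ _ h4⟩
  have tA : ∀ (x : Eisˣ) (y : ℝ), (ClassV 1 (toLaurent (q + C (x : Eis) * f)) ∨
      ∃ θ' : ℝ, θ' ≤ y ∧ ClassP θ' (toLaurent (q + C (x : Eis) * f))) →
      ToP y (LaurentPolynomial.T n * toLaurent q) (LaurentPolynomial.T m * toLaurent f)
        (uT x (n - m)) := by
    intro x y h
    unfold ToP
    rw [loadA]
    rcases h with h3 | ⟨θ', h3, h4⟩
    · exact Or.inl (shiftV _ _ _ h3)
    · exact Or.inr ⟨θ', h3, shiftP _ _ _ h4⟩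
  rcases lt_or_ge (θ / 10) ‖c‖ with hc | hc
  · -- heavy
    right; right; left
    refine ⟨?_, uT hu.unit (n - m + 1), tB hu.unit _ ((hLb θ q f s r T c hθ hd hu.unit).2.2 hc.le h1)⟩
    have : θ / 11 < ‖c‖ - 1 := by linarith
    linarith
  rcases le_or_gt (1 + 20 / θ) ‖c‖ with hc2 | hc2
  · -- two loads of type B
    left
    refine ⟨uT hu.unit (n - m + 1), uT hv.unit (n - m + 1), ⟨w, ?_, hw1, hw2⟩, ?_, ?_,
      tB hu.unit _ ((hLb θ q f s r T c hθ hd hu.unit).1 hc2 hc ?_),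
      tB hv.unit _ ((hLb θ q f s r T c hθ hd hv.unit).1 hc2 hc h2)⟩
    · change LaurentPolynomial.C u * LaurentPolynomial.T (n - m + 1) =
        LaurentPolynomial.C w * (LaurentPolynomial.C v * LaurentPolynomial.T (n - m + 1))
      rw [huv, map_mul, mul_assoc]
    · rw [mnB hE hM n m θ q f s r T c hd]
      apply div_le_div_of_nonneg_right _ hθ0.le
      rw [h20] at hc2
      linarith
    · rw [mnB hE hM n m θ q f s r T c hd, div_le_iff₀ hθ0]
      linarith
    · change _ ≤ (Eis.emb u * _).re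
      nlinarith
  by_cases hfu : IsUnit (f.coeff 0)
  · rcases le_or_gt (72 / 100) ‖c‖ with hc3 | hc3
    · -- window
      right; left
      obtain ⟨v1, N', h3, h4⟩ := (hLa θ q f s r T c hθ hd hc2.le).2 hfu
      have hTB : ToP (θ - 1 / 2) (LaurentPolynomial.T n * toLaurent q)
          (LaurentPolynomial.T m * toLaurent f) (uT hu.unit (n - m + 1)) :=
        tB hu.unit _ ((hLb θ q f s r T c hθ hd hu.unit).2.1 hc3 hc2.le h1)
      have hTV : ClassV N' (LaurentPolynomial.T n * toLaurent q +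
          ((uT v1 (n - m) : (RO Eis)ˣ) : RO Eis) * (LaurentPolynomial.T m * toLaurent f)) := by
        rw [loadA]
        exact shiftV _ _ _ h4
      refine ⟨uT v1 (n - m), uT hu.unit (n - m + 1), ⟨⟨N', hTV⟩, ?_, ?_⟩, ⟨N', ?_, hTV⟩, hTB, ?_⟩
      · rcases hTB with h5 | ⟨θ', -, h5⟩
        · exact Or.inl h5
        · exact Or.inr ⟨θ', h5⟩
      · refine ⟨u * ((v1⁻¹ : Eisˣ) : Eis), 1, one_ne_zero, ?_⟩
        rw [uT_val, uT_val]
        have h5 : (LaurentPolynomial.T (n - m + 1) : RO Eis) =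
            LaurentPolynomial.T 1 * LaurentPolynomial.T (n - m) := by
          rw [← LaurentPolynomial.T_add]
          congr 1
          ring
        have h6 : (LaurentPolynomial.C (u * ((v1⁻¹ : Eisˣ) : Eis)) : RO Eis) *
            LaurentPolynomial.C (v1 : Eis) = LaurentPolynomial.C u := by
          rw [← map_mul, mul_assoc, Units.inv_mul, mul_one]
        have h7 : ((hu.unit : Eisˣ) : Eis) = u := rfl
        rw [h7, h5, ← h6]
        ring
      · have h5 : ‖c‖ * θ ≤ (1 + 20 / θ) * θ := mul_le_mul_of_nonneg_right hc2.le hθ0.le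
        have h6 : (1 + 20 / θ) * θ = θ + 20 := by field_simp
        linarith
      · intro hpw
        rw [mnB hE hM n m θ q f s r T c hd]
        apply div_le_div_of_nonneg_right _ hθ0.le
        have hu1 : ‖Eis.emb u‖ = 1 := Eis.norm_emb_unit hu
        have h5 := hPu (q.map Eis.emb) (f.map Eis.emb) r s T c (Eis.emb u)
          (by rw [hd.nT]; exact hd.th) hu1 hd.s0 hd.qs hd.fs (by
            intro z hz
            obtain ⟨x, rfl⟩ : ∃ x : Circle, (x : ℂ) = z :=
              ⟨⟨z, mem_sphere_zero_iff_norm.mpr hz⟩, rfl⟩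
            have h6 := hpw x
            rw [loadB, norm_evR, norm_evR, norm_evR] at h6
            rw [Polynomial.map_add, Polynomial.map_mul, Polynomial.map_mul, map_C, map_X] at h6
            exact h6)
        rw [← coeff_zero_eq_eval_zero, ← coeff_zero_eq_eval_zero, coeff_map, coeff_map] at h5
        change ‖(Coef.emb (f.coeff 0) : ℂ)‖ ≤ ‖c‖ * ‖(Coef.emb (q.coeff 0) : ℂ)‖ at h5
        rw [hq1, mul_one] at h5
        linarith
    · -- single load of type A1
      right; right; right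
      obtain ⟨v1, N', h3, h4⟩ := (hLa θ q f s r T c hθ hd hc2.le).2 hfu
      refine ⟨uT v1 (n - m), Or.inr ⟨N', ?_, ?_⟩⟩
      · have h5 : ‖c‖ * θ ≤ 72 / 100 * θ := mul_le_mul_of_nonneg_right hc3.le hθ0.le
        linarith
      · rw [loadA]
        exact shiftV _ _ _ h4
  · -- single load of type A2
    right; right; right
    obtain ⟨v1, h3⟩ := (hLa θ q f s r T c hθ hd hc2.le).1 hfu
    exact ⟨uT v1 (n - m), Or.inl (tA v1 _ h3)⟩

end Pool.Agent.B5.H24
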